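import Pool.Agent.Q285.FM.Stmt
import Pool.Agent.Q187.EM.MainN

/-! The weights `n ≤ -2` of all schemes are the weight `-1` of blow-ups of projective spaces. -/

set_option autoImplicit false

namespace Pool.Agent.Q285.FM

open Pool.Agent.Q187.EM

universe u

theorem fg_component {ι : Type} [DecidableEq ι] {A : ι → Type u} [∀ i, AddCommGroup (A i)]
    (h : AddGroup.FG ((i : ι) → A i)) (i : ι) : AddGroup.FG (A i) :=
  @AddGroup.fg_of_surjective _ _ _ _ h (Pi.evalAddMonoidHom A i)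
    (fun y => ⟨Function.update 0 i y, by simp⟩)

theorem fg_prod_iff {A B : Type u} [AddCommGroup A] [AddCommGroup B] :
    AddGroup.FG (A × B) ↔ AddGroup.FG A ∧ AddGroup.FG B := by
  constructor
  · intro h
    exact ⟨@AddGroup.fg_of_surjective _ _ _ _ h (AddMonoidHom.fst A B) (fun a => ⟨(a, 0), rfl⟩),
      @AddGroup.fg_of_surjective _ _ _ _ h (AddMonoidHom.snd A B) (fun b => ⟨(0, b), rfl⟩)⟩
  · rintro ⟨h1, h2⟩
    have h1' : Module.Finite ℤ A := Module.Finite.iff_addGroup_fg.2 h1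
    have h2' : Module.Finite ℤ B := Module.Finite.iff_addGroup_fg.2 h2
    exact Module.Finite.iff_addGroup_fg.1 inferInstance

variable {T : ArithB.{u}} (hT : IsArithB T)

include hT

theorem fgb_of_open {U X Z : T.Sch} (h : T.Opn U X Z) {n : ℤ} (hn : n < 0)
    (hU : ∀ i, AddGroup.FG (T.H U n i)) (hZ : ∀ i, AddGroup.FG (T.H Z n i)) :
    ∀ i, AddGroup.FG (T.H X n i) := by
  intro i
  obtain ⟨a, b, c, h1, -⟩ := hT.coh.localization U X Z h n hn i
  exact fg_middle a b h1 (hZ i) (hU i)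

theorem fgb_to_open {U X Z : T.Sch} (h : T.Opn U X Z) {n : ℤ} (hn : n < 0)
    (hX : ∀ i, AddGroup.FG (T.H X n i)) (hZ : ∀ i, AddGroup.FG (T.H Z n i)) :
    ∀ i, AddGroup.FG (T.H U n i) := by
  intro i
  obtain ⟨a, b, c, -, h2⟩ := hT.coh.localization U X Z h n hn i
  exact fg_middle b c h2 (hX i) (hZ (i + 1))

theorem fgb_of_empty {X : T.Sch} (h : T.IsEmpty X) (n i : ℤ) : AddGroup.FG (T.H X n i) := by
  have := hT.coh.empty X h n i
  exact AddGroup.fg_of_finite

/-- one weight -/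
theorem fgb_weight {n : ℤ} (hn : n < 0) (hyp : ∀ U, T.Integral U → ∃ V, AlterationP T U V ∧
    ∀ i ≤ -2 * n + 1, AddGroup.FG (T.H V n i)) :
    ∀ X, ∀ i, AddGroup.FG (T.H X n i) := by
  have key : ∀ (d c : ℕ) (X : T.Sch), T.dim X = d → T.comps X = c →
      ∀ i, AddGroup.FG (T.H X n i) := by
    intro d
    induction d using Nat.strong_induction_on with
    | _ d ihd =>
      intro c
      induction c using Nat.strong_induction_on with
      | _ c ihc =>
        intro X hd hc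
        by_cases hE : T.IsEmpty X
        · exact fun i => fgb_of_empty hT hE n i
        have hsmall : ∀ Z, Small T.toArith Z d → ∀ i, AddGroup.FG (T.H Z n i) := by
          intro Z hZ
          rcases hZ with hZ | hZ
          · exact fun i => fgb_of_empty hT hZ n i
          · exact ihd (T.dim Z) hZ (T.comps Z) Z rfl rfl
        obtain ⟨U, Z, hO, hI, hdU, hZ⟩ := hT.strat X hE
        have hZfg : ∀ i, AddGroup.FG (T.H Z n i) := by
          rcases hZ with hZ | hZ | ⟨hZ1, hZ2⟩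
          · exact hsmall Z (Or.inl hZ)
          · exact hsmall Z (Or.inr (by omega))
          · exact ihc (T.comps Z) (by omega) Z (by omega) rfl
        obtain ⟨V, ⟨hreg, U', Z', V', W, h1, h2, h3, h4, h5⟩, hV⟩ := hyp U hI
        rw [hdU, hd] at h2 h5
        have hVfg := hT.refined V (hT.projective_proper V hreg) n hn hV
        have hV' := fgb_to_open hT h4 hn hVfg (hsmall W h5)
        have hU' : ∀ i, AddGroup.FG (T.H U' n i) := by
          intro i
          obtain ⟨m, hm, hmm⟩ := hT.coh.transfer V' U' h3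
          obtain ⟨p, q, hpq⟩ := hmm n hn i
          exact fg_transfer m p q hpq (hV' i) (hT.coh.torsion U' n hn i m hm)
        have hU := fgb_of_open hT h1 hn hU' (hsmall Z' h2)
        exact fgb_of_open hT hO hn hU hZfg
  intro X
  exact key _ _ X rfl rfl

/-- the centre of a blow-up -/
theorem centre_fg {Y : T.Sch} (hY : T.RegularProjective Y) {N : ℕ} (h0 : T.N0 Y ≤ N)
    (hd : T.dim Y < N) (h : ∀ i ≤ 3, AddGroup.FG (T.H (T.Bl Y N) (-1) i)) :
    ∀ i ≤ -2 * (-2 : ℤ) + 1, AddGroup.FG (T.H Y (-2) i) := by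
  intro i hi
  obtain ⟨e⟩ := hT.blowup Y hY N h0 (-1) (by norm_num) (i - 2)
  have h1 : AddGroup.FG (T.H (T.PN N) (-1) (i - 2) × Exc T Y N (-1) (i - 2)) :=
    @AddGroup.fg_of_surjective _ _ _ _ (h (i - 2) (by omega)) e.toAddMonoidHom e.surjective
  have h2 : AddGroup.FG ((j : Fin (N - T.dim Y)) →
      T.H Y (-1 - ((j : ℤ) + 1)) (i - 2 + 2 * ((j : ℤ) + 1))) := (fg_prod_iff.1 h1).2
  have h3 := fg_component h2 (⟨0, by omega⟩ : Fin (N - T.dim Y))
  have e1 : (-1 : ℤ) - (((⟨0, by omega⟩ : Fin (N - T.dim Y)) : ℕ) + 1 : ℤ) = -2 := by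
    show (-1 : ℤ) - (((0 : ℕ) : ℤ) + 1) = -2
    norm_num
  have e2 : i - 2 + 2 * (((⟨0, by omega⟩ : Fin (N - T.dim Y)) : ℕ) + 1 : ℤ) = i := by
    show i - 2 + 2 * (((0 : ℕ) : ℤ) + 1) = i
    push_cast
    ring
  rw [e1, e2] at h3
  exact h3

theorem allBelow_of_one (h : OneBlowUp T) : AllBelow T := by
  intro X n hn i
  obtain ⟨r, hr⟩ : ∃ r : ℕ, n = -2 - r := ⟨(-2 - n).toNat, by omega⟩
  have h1 := fgb_weight hT (n := -2) (by norm_num) (fun U hU => by
    obtain ⟨V, hV, N, h0, hd, hN⟩ := h U hU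
    exact ⟨V, hV, centre_fg hT hV.1 h0 hd hN⟩) (T.A X r) (i - 2 * r)
  obtain ⟨e⟩ := hT.coh.affine X r (-2) (by norm_num) (i - 2 * r)
  have h2 : AddGroup.FG (T.H X (-2 - (r : ℤ)) (i - 2 * r + 2 * r)) :=
    @AddGroup.fg_of_surjective _ _ _ _ h1 e.toAddMonoidHom e.surjective
  rw [sub_add_cancel, ← hr] at h2
  exact h2

theorem blowUps_of_q1 (h : Q1Below T) : Q1BlowUps T := by
  intro Y hY N h0 i hi
  obtain ⟨e⟩ := hT.blowup Y hY N h0 (-1) (by norm_num) i
  have h1 : ∀ j : Fin (N - T.dim Y),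
      AddGroup.FG (T.H Y (-1 - ((j : ℤ) + 1)) (i + 2 * ((j : ℤ) + 1))) := by
    intro j
    exact h Y (hT.projective_proper Y hY) _ (by omega) _ (by omega)
  have h2 : AddGroup.FG (Exc T Y N (-1) i) := by
    have h3 : ∀ j : Fin (N - T.dim Y),
        Module.Finite ℤ (T.H Y (-1 - ((j : ℤ) + 1)) (i + 2 * ((j : ℤ) + 1))) :=
      fun j => Module.Finite.iff_addGroup_fg.2 (h1 j)
    exact Module.Finite.iff_addGroup_fg.1 Module.Finite.pi
  have h4 := fg_prod_iff.2 ⟨hT.projectiveSpace N (-1) (by norm_num) i, h2⟩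
  exact @AddGroup.fg_of_surjective _ _ _ _ h4 e.symm.toAddMonoidHom e.symm.surjective

/-- **The weight `-1` of blow-ups of projective spaces.** -/
theorem weight_shift : (Q1Below T ↔ Q1BlowUps T) ∧ (Q1Below T ↔ OneBlowUp T) ∧
    (Q1Below T ↔ AllBelow T) := by
  have a1 : AllBelow T → Q1Below T := fun h X _ n hn i _ => h X n hn i
  have a2 : Q1BlowUps T → OneBlowUp T := by
    intro h U hU
    obtain ⟨V, hV⟩ := hT.deJong U hU
    exact ⟨V, hV, max (T.N0 V) (T.dim V + 1), le_max_left _ _,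
      lt_of_lt_of_le (Nat.lt_succ_self _) (le_max_right _ _),
      h V hV.1 _ (le_max_left _ _)⟩
  have a3 := blowUps_of_q1 hT
  have a4 := allBelow_of_one hT
  exact ⟨⟨a3, fun h => a1 (a4 (a2 h))⟩, ⟨fun h => a2 (a3 h), fun h => a1 (a4 h)⟩,
    ⟨fun h => a4 (a2 (a3 h)), a1⟩⟩

end Pool.Agent.Q285.FM
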