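import Pool.Agent.Q187.EM.StmtN

/-!
Blow-ups of projective spaces over the integers along regular projective schemes: definitions.
-/

set_option autoImplicit false

namespace Pool.Agent.Q285.FM

open Pool.Agent.Q187.EM

universe u

/-- Arithmetic schemes, their groups, and blow-ups of projective spaces over the integers. -/
structure ArithB extends Arith.{u} where
  /-- regular and projective over the integers, of pure dimension -/
  RegularProjective : Sch → Prop
  /-- `Y` is embedded in the projective space of relative dimension `N` for `N0 Y ≤ N` -/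
  N0 : Sch → ℕ
  /-- the projective space of relative dimension `N` over the integers -/
  PN : ℕ → Sch
  /-- `Bl Y N` is the blow-up of `PN N` along `Y` -/
  Bl : Sch → ℕ → Sch

variable (T : ArithB.{u})

/-- The sum of the groups `H^(i+2j)(Y_et, Z^c(n-j))` for `0 < j < c`, where `c = N + 1 - dim Y` is the
codimension of `Y`. -/
def Exc (Y : T.Sch) (N : ℕ) (n i : ℤ) : Type u :=
  (j : Fin (N - T.dim Y)) → T.H Y (n - ((j : ℤ) + 1)) (i + 2 * ((j : ℤ) + 1))

instance excGroup (Y : T.Sch) (N : ℕ) (n i : ℤ) : AddCommGroup (Exc T Y N n i) :=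
  Pi.addCommGroup

/-- `V` is regular and projective over the integers, and a dense open subscheme of `V` is finite etale
over a dense open subscheme of `U`. -/
def AlterationP (U V : T.Sch) : Prop :=
  T.RegularProjective V ∧ ∃ U' Z' V' W, T.Opn U' U Z' ∧ Small T.toArith Z' (T.dim U) ∧ T.Fet V' U' ∧
    T.Opn V' V W ∧ Small T.toArith W (T.dim U)

/-- Known properties. -/
structure IsArithB : Prop where
  coh : IsCycleCohomology T.toArith
  strat : Stratified T.toArith
  /-- de Jong -/
  deJong : ∀ U, T.Integral U → ∃ V, AlterationP T U V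
  /-- the equivalence of the problem file: for regular proper schemes finite generation in degrees
  `i ≤ -2n + 1` implies finite generation in all degrees -/
  refined : ∀ V, T.RegularProper V → ∀ n < 0, (∀ i ≤ -2 * n + 1, AddGroup.FG (T.H V n i)) →
    ∀ i, AddGroup.FG (T.H V n i)
  projective_proper : ∀ V, T.RegularProjective V → T.RegularProper V
  /-- the blow-ups are regular and proper -/
  blowup_proper : ∀ Y, T.RegularProjective Y → ∀ N, T.N0 Y ≤ N → T.RegularProper (T.Bl Y N)
  /-- finite generation for the projective spaces over the integers -/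
  projectiveSpace : ∀ N, ∀ n < 0, ∀ i, AddGroup.FG (T.H (T.PN N) n i)
  /-- the blow-up formula -/
  blowup : ∀ Y, T.RegularProjective Y → ∀ N, T.N0 Y ≤ N → ∀ n < 0, ∀ i,
    Nonempty (T.H (T.Bl Y N) n i ≃+ T.H (T.PN N) n i × Exc T Y N n i)

/-- Q1 in the weights `n ≤ -2`. -/
def Q1Below : Prop :=
  ∀ X, T.RegularProper X → ∀ n ≤ -2, ∀ i ≤ -2 * n + 1, AddGroup.FG (T.H X n i)

/-- Q1 in the weight `-1` for the blow-ups of projective spaces along regular projective schemes. -/
def Q1BlowUps : Prop :=
  ∀ Y, T.RegularProjective Y → ∀ N, T.N0 Y ≤ N → ∀ i ≤ 3, AddGroup.FG (T.H (T.Bl Y N) (-1) i)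

/-- Finite generation for all arithmetic schemes in all degrees and weights `n ≤ -2`. -/
def AllBelow : Prop := ∀ X, ∀ n ≤ -2, ∀ i, AddGroup.FG (T.H X n i)

/-- For each integral arithmetic scheme `U` one alteration `V` as above and one blow-up of a
projective space, of relative dimension greater than `dim V`, along it. -/
def OneBlowUp : Prop :=
  ∀ U, T.Integral U → ∃ V, AlterationP T U V ∧ ∃ N, T.N0 V ≤ N ∧ T.dim V < N ∧
    ∀ i ≤ 3, AddGroup.FG (T.H (T.Bl V N) (-1) i)

end Pool.Agent.Q285.FM
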